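import Pool.Agent.Lib.MP_c2298c_an.CF.Main

/-!
The first Dyson-Phillips term is compact at all times, the later ones are not even weakly compact.
-/

open MeasureTheory Pool.Agent.Lib.MP_c2298c_an

theorem Pool.Agent.Results.MP_c2298c_an.FirstCompact.result :
    ∃ (Ω : Type) (_ : MeasurableSpace Ω) (ν : Measure Ω),
      SigmaFinite ν ∧ CompactnessLost (Lp ℝ 1 ν) := by
  obtain ⟨P, h⟩ := CF.main
  exact ⟨Om (fun k => St (P.N k)), inferInstance, Measure.count, inferInstance, h⟩
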