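import Pool.Agent.Lib.MP_c2298c_an.AT.Main

/-!
A conservative example in which all Dyson-Phillips terms and remainders of positive order are
weakly compact at all times, compact at no positive time and nowhere norm continuous.
-/

open MeasureTheory Pool.Agent.Lib.MP_c2298c_an

theorem Pool.Agent.Results.MP_c2298c_an.AllTerms.result :
    ∃ (Ω : Type) (_ : MeasurableSpace Ω) (ν : Measure Ω),
      SigmaFinite ν ∧ AllTermsFail (Lp ℝ 1 ν) fun φ => ∫ x, φ x ∂ν :=
  ⟨AT.Sp, inferInstance, AT.nu, inferInstance, AT.main⟩
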